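import Pool.Agent.Helper15.BP.Main
import Pool.Agent.Helper56.BP.Reg

/-!
# The finite theorem T1: a subgroup inside `2^j A - 2^j A`
-/

set_option autoImplicit false

namespace Pool.Agent.Helper15.BP

open Finset

namespace FT1

/-- values of `twoPow` are sums of `2 ^ j` values of the family -/
theorem twoPow_val {G : Type} [AddCommGroup G] (B : Fam G) (j : ℕ) :
    ∀ n : ℕ, n = 2 ^ j → ∀ o : (twoPow B j).Ω, ∃ a : Fin n → B.Ω,
      (twoPow B j).Y o = ∑ i, B.Y (a i) := by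
  induction j with
  | zero =>
    intro n hn o
    have hn1 : n = 1 := by simpa using hn
    subst hn1
    exact ⟨fun _ => o, by simp [twoPow]⟩
  | succ j ih =>
    intro n hn o
    have hn2 : n = 2 ^ j + 2 ^ j := by rw [hn, pow_succ]; ring
    subst hn2
    obtain ⟨a, ha⟩ := ih _ rfl o.1
    obtain ⟨b, hb⟩ := ih _ rfl o.2
    refine ⟨Fin.append a b, ?_⟩
    rw [Fin.sum_univ_add]
    simp only [Fin.append_left, Fin.append_right]
    rw [← ha, ← hb]
    rfl

/-- the deficiency is at least `log card G - log (number of values)` -/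
theorem D_bot_ge {G : Type} [AddCommGroup G] [Finite G] (B : Fam G) :
    Real.log (Nat.card G) - Real.log (Set.range B.Y).ncard ≤ B.D ⊥ := by
  rw [Fam.D_bot]
  have h1 := Ent_le_add_log B.hw B.Y B.J (Set.range B.Y).ncard (fun o => ?_)
  · have h2 : Ent B.w (fun o => (B.Y o, B.J o)) = Ent B.w (fun o => (B.J o, B.Y o)) := by
      refine Ent_congr fun o o' => ?_
      simp only [Prod.mk.injEq]
      tauto
    rw [h2] at h1
    linarith
  · refine Set.ncard_le_ncard ?_ (Set.toFinite _)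
    rintro a ⟨o', -, rfl⟩
    exact ⟨o', rfl⟩

/-- two sets with more than half of the elements: every element is a difference -/
theorem exists_sub_of_large {G : Type} [AddCommGroup G] [Finite G] (S : Set G)
    (hS : Nat.card G < 2 * S.ncard) (v : G) : ∃ s ∈ S, ∃ t ∈ S, v = s - t := by
  have h1 : ((fun t => v + t) '' S).ncard = S.ncard :=
    Set.ncard_image_of_injective S (add_right_injective v)
  by_contra hcon
  push Not at hcon
  have hdis : Disjoint S ((fun t => v + t) '' S) := by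
    rw [Set.disjoint_left]
    rintro s hs ⟨t, ht, hst⟩
    exact hcon s hs t ht (by rw [← hst]; simp)
  have h2 := Set.ncard_union_eq hdis (Set.toFinite _) (Set.toFinite _)
  have h3 := Set.ncard_le_ncard (Set.subset_univ (S ∪ ((fun t => v + t) '' S))) (Set.toFinite _)
  rw [h2, h1, Set.ncard_univ] at h3
  omega

/-- small deficiency of the `2 ^ j`-fold sum: every element is a difference of two sums -/
theorem exists_sums {G : Type} [AddCommGroup G] [Finite G] (B : Fam G) (j : ℕ)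
    (h : (twoPow B j).D ⊥ ≤ 1 / 2) (v : G) :
    ∃ a b : Fin (2 ^ j) → B.Ω, v = ∑ i, B.Y (a i) - ∑ i, B.Y (b i) := by
  have h1 := D_bot_ge (twoPow B j)
  have hpos : 0 < Nat.card G := Nat.card_pos
  have hl2 := Real.log_two_gt_d9
  have hlarge : Nat.card G < 2 * (Set.range (twoPow B j).Y).ncard := by
    by_contra hcon
    push Not at hcon
    have hN : (Set.range (twoPow B j).Y).ncard ≠ 0 := by
      rw [Ne, Set.ncard_eq_zero (Set.toFinite _)]
      intro h0
      have hΩ : Nonempty (twoPow B j).Ω := by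
        by_contra hn
        rw [not_nonempty_iff] at hn
        have := (twoPow B j).hw.sum_one
        simp at this
      obtain ⟨o⟩ := hΩ
      have : (twoPow B j).Y o ∈ Set.range (twoPow B j).Y := ⟨o, rfl⟩
      rw [h0] at this
      exact this
    have h2 : Real.log 2 + Real.log (Set.range (twoPow B j).Y).ncard ≤ Real.log (Nat.card G) := by
      rw [← Real.log_mul (by norm_num) (by exact_mod_cast hN)]
      refine Real.log_le_log ?_ (by exact_mod_cast hcon)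
      have : (0 : ℝ) < (Set.range (twoPow B j).Y).ncard := by exact_mod_cast Nat.pos_of_ne_zero hN
      linarith
    linarith
  obtain ⟨s, ⟨o, rfl⟩, t, ⟨o', rfl⟩, hv⟩ := exists_sub_of_large _ hlarge v
  obtain ⟨a, ha⟩ := twoPow_val B j _ rfl o
  obtain ⟨b, hb⟩ := twoPow_val B j _ rfl o'
  exact ⟨a, b, by rw [hv, ha, hb]⟩

/-- the choice of the parameter `X` -/
theorem choose_X {c : ℝ} (hc : 0 < c) {L : ℝ} (hL : 0 ≤ L) {j : ℕ} (hj : 1 ≤ j) :
    ∃ X : ℝ, 0 < X ∧ X ≤ 1 ∧ X ^ ((1 + c) ^ j - 1 : ℝ) * L ≤ 1 / 2 ∧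
      L / X ≤ (2 : ℝ) ^ (1 / c) * (1 + L) ^ (1 + 1 / ((1 + c) ^ j - 1) : ℝ) := by
  have hγ : c ≤ (1 + c) ^ j - 1 := by
    have h1 : (1 + c) ^ 1 ≤ (1 + c) ^ j := pow_le_pow_right₀ (by linarith) hj
    rw [pow_one] at h1
    linarith
  set γ : ℝ := (1 + c) ^ j - 1 with hγdef
  have hγ0 : 0 < γ := lt_of_lt_of_le hc hγ
  have hb : (0 : ℝ) < 2 * (1 + L) := by linarith
  have hb1 : (1 : ℝ) ≤ 2 * (1 + L) := by linarith
  refine ⟨(2 * (1 + L)) ^ (-(1 / γ)), Real.rpow_pos_of_pos hb _, ?_, ?_, ?_⟩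
  · exact Real.rpow_le_one_of_one_le_of_nonpos hb1 (by
      have : 0 < 1 / γ := by positivity
      linarith)
  · rw [← Real.rpow_mul hb.le]
    have e1 : -(1 / γ) * γ = -1 := by field_simp
    rw [e1, Real.rpow_neg_one, inv_mul_le_iff₀ hb]
    linarith
  · rw [Real.rpow_neg hb.le, div_inv_eq_mul, Real.mul_rpow (by norm_num) (by linarith),
      Real.rpow_add (by linarith), Real.rpow_one]
    have h1 : (2 : ℝ) ^ (1 / γ) ≤ 2 ^ (1 / c) :=
      Real.rpow_le_rpow_of_exponent_le (by norm_num) (one_div_le_one_div_of_le hc hγ)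
    have h2 : (0 : ℝ) ≤ (1 + L) ^ (1 / γ) := Real.rpow_nonneg (by linarith) _
    have h3 : (0 : ℝ) ≤ 2 ^ (1 / c) := by positivity
    calc L * (2 ^ (1 / γ) * (1 + L) ^ (1 / γ))
        ≤ (1 + L) * (2 ^ (1 / c) * (1 + L) ^ (1 / γ)) := by
          refine mul_le_mul (by linarith) (mul_le_mul_of_nonneg_right h1 h2) ?_ (by linarith)
          positivity
      _ = 2 ^ (1 / c) * ((1 + L) * (1 + L) ^ (1 / γ)) := by ring

end FT1

open FT1 in
/-- the finite theorem, from the regularisation and the iteration -/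
theorem finT1_of
    (hreg : ∀ (G : Type) [AddCommGroup G] [Finite G] [DecidableEq G] (A : Finset G), A.Nonempty →
      ∀ κ : ℝ, 0 < κ → ∃ (V : AddSubgroup G) (x : G) (B : Fam V), Slope B κ ∧
        B.D ⊥ + κ * Real.log (V ⊔ dbl G).index ≤ Real.log (Nat.card G) - Real.log A.card ∧
        ∀ o, x + (B.Y o : G) ∈ A)
    (hiter : ∃ C₀ c : ℝ, 0 < C₀ ∧ 0 < c ∧ ∀ (G : Type) [AddCommGroup G] [Finite G],
      (∃ k : ℕ, ∀ x : G, (2 ^ k : ℕ) • x = 0) → ∀ (A : Fam G) (j : ℕ) (X : ℝ), 0 < X → X ≤ 1 →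
        Slope A (C₀⁻¹ * X) → (twoPow A j).D ⊥ ≤ X ^ ((1 + c) ^ j - 1 : ℝ) * A.D ⊥) :
    ∃ C c : ℝ, 0 < C ∧ 0 < c ∧ ∀ (G : Type) [AddCommGroup G] [Finite G],
      (∃ k : ℕ, ∀ x : G, (2 ^ k : ℕ) • x = 0) → ∀ A : Finset G, A.Nonempty → ∀ j : ℕ, 1 ≤ j →
      ∃ V : AddSubgroup G, Real.log (V ⊔ dbl G).index ≤
          C * (1 + (Real.log (Nat.card G) - Real.log A.card)) ^ (1 + 1 / ((1 + c) ^ j - 1) : ℝ) ∧
        ∀ v ∈ V, ∃ a b : Fin (2 ^ j) → G, (∀ i, a i ∈ A) ∧ (∀ i, b i ∈ A) ∧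
          v = ∑ i, a i - ∑ i, b i := by
  classical
  obtain ⟨C₀, c, hC₀, hc, hit⟩ := hiter
  refine ⟨C₀ * 2 ^ (1 / c), c, by positivity, hc, ?_⟩
  intro G _ _ hexp A hA j hj
  set L : ℝ := Real.log (Nat.card G) - Real.log A.card with hLdef
  have hL : 0 ≤ L := by
    have h1 : (A.card : ℝ) ≤ Nat.card G := by
      have h2 : A.card ≤ Nat.card G := by
        rw [← Set.ncard_coe_finset, ← Set.ncard_univ]
        exact Set.ncard_le_ncard (Set.subset_univ _) (Set.toFinite _)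
      exact_mod_cast h2
    have h3 : (0 : ℝ) < A.card := by exact_mod_cast hA.card_pos
    have := Real.log_le_log h3 h1
    linarith
  obtain ⟨X, hX0, hX1, hXL, hXC⟩ := choose_X hc hL hj
  have hκ : 0 < C₀⁻¹ * X := by positivity
  obtain ⟨V, x, B, hsl, hD, hval⟩ := hreg G A hA (C₀⁻¹ * X) hκ
  have hBD : 0 ≤ B.D ⊥ := B.D_nonneg ⊥
  have hidx : 0 ≤ Real.log (V ⊔ dbl G).index := Real.log_natCast_nonneg _
  have hBL : B.D ⊥ ≤ L := by
    have : 0 ≤ C₀⁻¹ * X * Real.log (V ⊔ dbl G).index := mul_nonneg hκ.le hidx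
    linarith
  have hVexp : ∃ k : ℕ, ∀ v : V, (2 ^ k : ℕ) • v = 0 := by
    obtain ⟨k, hk⟩ := hexp
    exact ⟨k, fun v => Subtype.ext (by
      rw [AddSubgroup.coe_nsmul, hk, AddSubgroup.coe_zero])⟩
  have hsmall : (twoPow B j).D ⊥ ≤ 1 / 2 := by
    refine (hit V hVexp B j X hX0 hX1 hsl).trans (le_trans ?_ hXL)
    exact mul_le_mul_of_nonneg_left hBL (Real.rpow_nonneg hX0.le _)
  refine ⟨V, ?_, ?_⟩
  · have h1 : C₀⁻¹ * X * Real.log (V ⊔ dbl G).index ≤ L := by linarith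
    have h2 : Real.log (V ⊔ dbl G).index ≤ C₀ * (L / X) := by
      have e : Real.log (V ⊔ dbl G).index = C₀ / X * (C₀⁻¹ * X * Real.log (V ⊔ dbl G).index) := by
        field_simp
      rw [e]
      have h3 : C₀ * (L / X) = C₀ / X * L := by ring
      rw [h3]
      exact mul_le_mul_of_nonneg_left h1 (by positivity)
    calc Real.log (V ⊔ dbl G).index ≤ C₀ * (L / X) := h2
      _ ≤ C₀ * ((2 : ℝ) ^ (1 / c) * (1 + L) ^ (1 + 1 / ((1 + c) ^ j - 1) : ℝ)) :=
          mul_le_mul_of_nonneg_left hXC hC₀.le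
      _ = C₀ * 2 ^ (1 / c) * (1 + L) ^ (1 + 1 / ((1 + c) ^ j - 1) : ℝ) := by ring
  · intro v hv
    obtain ⟨a, b, hab⟩ := exists_sums B j hsmall ⟨v, hv⟩
    refine ⟨fun i => x + (B.Y (a i) : G), fun i => x + (B.Y (b i) : G), fun i => hval _,
      fun i => hval _, ?_⟩
    rw [Finset.sum_add_distrib, Finset.sum_add_distrib, add_sub_add_left_eq_sub]
    have h1 := congrArg (fun w : V => (w : G)) hab
    simp only at h1
    rw [h1]
    push_cast
    rfl

/-- **The finite theorem T1**: a subgroup of small corank inside `2 ^ j A - 2 ^ j A`. -/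
theorem finT1 : ∃ C c : ℝ, 0 < C ∧ 0 < c ∧ ∀ (G : Type) [AddCommGroup G] [Finite G],
    (∃ k : ℕ, ∀ x : G, (2 ^ k : ℕ) • x = 0) → ∀ A : Finset G, A.Nonempty → ∀ j : ℕ, 1 ≤ j →
    ∃ V : AddSubgroup G, Real.log (V ⊔ dbl G).index ≤
        C * (1 + (Real.log (Nat.card G) - Real.log A.card)) ^ (1 + 1 / ((1 + c) ^ j - 1) : ℝ) ∧
      ∀ v ∈ V, ∃ a b : Fin (2 ^ j) → G, (∀ i, a i ∈ A) ∧ (∀ i, b i ∈ A) ∧
        v = ∑ i, a i - ∑ i, b i := by
  refine finT1_of (fun G _ _ _ A hA κ hκ => reg A hA κ hκ) ?_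
  obtain ⟨C₀, c, hC₀, hc, h⟩ := iter_final
  refine ⟨C₀, c, by linarith, hc, fun G _ _ hexp A j X hX0 hX1 hA => ?_⟩
  exact (h G hexp A X hX0 hX1 (by rwa [div_eq_inv_mul]) j).2

end Pool.Agent.Helper15.BP
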